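import Pool.Agent.Helper13.MS.MUF
import Pool.Agent.Helper13.MS.SWD
import Pool.Agent.Helper13.MS.FN

/-!
# MT-A1: exponent one from a twisted homomorphism with two independent directions, any characteristic
-/

set_option autoImplicit false

namespace Pool.Agent.Helper13.MT

open Pool.Agent.Helper13.MS

/-- no polynomial relation over the prime field: the integer polynomials which vanish at `(x, y)` are zero in `K[X, Y]` -/
def Indep {K : Type} [Field K] (x y : K) : Prop :=
  ∀ F : MvPolynomial (Fin 2) ℤ, MvPolynomial.aeval ![x, y] F = 0 → MvPolynomial.map (Int.castRingHom K) F = 0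

theorem freePlane_of_Indep {K : Type} [Field K] (x y : K) (h : Indep x y) : FreePlane x y := by
  classical
  refine ⟨1, one_pos, fun N L _ hL _ F hF hsum => ?_⟩
  set e : Fin N → Fin N → (Fin 2 →₀ ℕ) := fun j k =>
    Finsupp.single 0 (L * (j : ℕ)) + Finsupp.single 1 (L * (k : ℕ)) with he
  have he0 : ∀ j k, e j k 0 = L * (j : ℕ) := by
    intro j k
    simp [he]
  have he1 : ∀ j k, e j k 1 = L * (k : ℕ) := by
    intro j k
    simp [he]
  set P : MvPolynomial (Fin 2) ℤ := ∑ j, ∑ k, MvPolynomial.monomial (e j k) (F j k) with hP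
  have h1 : MvPolynomial.aeval ![x, y] P = 0 := by
    rw [hP, map_sum, ← hsum]
    refine Finset.sum_congr rfl fun j _ => ?_
    rw [map_sum]
    refine Finset.sum_congr rfl fun k _ => ?_
    rw [MvPolynomial.aeval_monomial]
    have h2 : ((e j k).prod fun i n => ![x, y] i ^ n) = x ^ (L * (j : ℕ)) * y ^ (L * (k : ℕ)) := by
      rw [Finsupp.prod_fintype _ _ (fun i => pow_zero _), Fin.prod_univ_two, he0, he1]
      simp
    rw [h2]
    simp
  have h3 := h P h1
  intro j₀ k₀
  have h4 : MvPolynomial.coeff (e j₀ k₀) (MvPolynomial.map (Int.castRingHom K) P) = (F j₀ k₀ : K) := by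
    rw [MvPolynomial.coeff_map, hP, MvPolynomial.coeff_sum, map_sum]
    rw [Finset.sum_eq_single j₀]
    · rw [MvPolynomial.coeff_sum, map_sum, Finset.sum_eq_single k₀]
      · rw [MvPolynomial.coeff_monomial, if_pos rfl]
        simp
      · intro k _ hk
        rw [MvPolynomial.coeff_monomial, if_neg, map_zero]
        intro h5
        apply hk
        have h6 := DFunLike.congr_fun h5 1
        rw [he1, he1] at h6
        exact Fin.ext (Nat.eq_of_mul_eq_mul_left hL h6)
      · intro h5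
        exact absurd (Finset.mem_univ _) h5
    · intro j _ hj
      rw [MvPolynomial.coeff_sum, map_sum]
      refine Finset.sum_eq_zero fun k _ => ?_
      rw [MvPolynomial.coeff_monomial, if_neg, map_zero]
      intro h5
      apply hj
      have h6 := DFunLike.congr_fun h5 0
      rw [he0, he0] at h6
      exact Fin.ext (Nat.eq_of_mul_eq_mul_left hL h6)
    · intro h5
      exact absurd (Finset.mem_univ _) h5
  rw [h3, MvPolynomial.coeff_zero] at h4
  have h7 := abs_le.1 (hF j₀ k₀)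
  have h8 : F j₀ k₀ = -1 ∨ F j₀ k₀ = 0 ∨ F j₀ k₀ = 1 := by omega
  rcases h8 with h8 | h8 | h8
  · rw [h8] at h4
    simp at h4
  · exact h8
  · rw [h8] at h4
    simp at h4

theorem main_of_freePlane {G K : Type} [Group G] [Field K] (Tw : Twisted G K) (hφ : ∃ g ∈ commutator G, Tw.φ g ≠ 0)
    (g₁ g₂ : G) (x y : Kˣ) (hx : x ∈ Subgroup.closure {Tw.χ g₁, Tw.χ g₂}) (hy : y ∈ Subgroup.closure {Tw.χ g₁, Tw.χ g₂})
    (hxy : FreePlane (x : K) (y : K))
    (Ω : Type) [Fintype Ω] [Nonempty Ω] (s : Ω → G) (σ : Ω ≃ Ω) (hσ : ∀ ω, s (σ ω) = (s ω)⁻¹)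
    (hs : Subgroup.closure (Set.range s) = ⊤) :
    Filter.Tendsto (fun n : ℕ => Real.log (expectedLength s n) / Real.log n) Filter.atTop (nhds 1) := by
  obtain ⟨α, β, hαβ⟩ := exists_pair Tw hφ s hs
  set s' : Ω → Kˣ := fun ω => Tw.χ (s ω) with hs'
  have hσ' : ∀ ω, s' (σ ω) = (s' ω)⁻¹ := fun ω => by simp [hs', hσ]
  have hcl : ∀ g : G, Tw.χ g ∈ Subgroup.closure (Set.range s') := by
    intro g
    have h1 : g ∈ Subgroup.closure (Set.range s) := hs ▸ Subgroup.mem_top g
    have h2 : Set.range s' = Tw.χ '' Set.range s := by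
      rw [← Set.range_comp]; rfl
    rw [h2, ← MonoidHom.map_closure]
    exact ⟨g, h1, rfl⟩
  have hcl2 : Subgroup.closure {Tw.χ g₁, Tw.χ g₂} ≤ Subgroup.closure (Set.range s') := by
    rw [Subgroup.closure_le]
    rintro z (rfl | rfl)
    · exact hcl _
    · exact hcl _
  have hm := fun Kn : ℕ => multi (hfun K) s' σ hσ' α β x y (hcl2 hx) (hcl2 hy) (hK_grid x y hxy) Kn
  set D : ℝ := Real.log 2 + Real.log (Fintype.card Ω) with hD
  have hl2 : 0 < Real.log 2 := Real.log_pos (by norm_num)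
  have hcard : (1 : ℝ) ≤ Fintype.card Ω := by exact_mod_cast Fintype.card_pos
  have hD0 : 0 < D := by
    have := Real.log_nonneg hcard
    linarith
  refine tendsto_of_multi s σ hσ hs (Real.log 2 / (2 * (Fintype.card Ω : ℝ) ^ 2) / D) (Real.log 2 / D) (by positivity) ?_
  intro Kn
  obtain ⟨c0, hc0⟩ := hm Kn
  refine ⟨max c0 1, fun c hc J hJ => ?_⟩
  have h1 := hc0 c (le_trans (le_max_left _ _) hc) J hJ
  have hc1 : 1 ≤ c := le_trans (le_max_right _ _) hc
  have h2 := swapping Tw s σ hσ hs α β hαβ (c ^ 8) J (Nat.one_le_pow _ _ hc1)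
  have h3 := le_trans h1 h2
  rw [← hD] at h3
  rw [div_mul_eq_mul_div, ← sub_div, div_le_iff₀ hD0]
  linarith

theorem main_of_Indep {G K : Type} [Group G] [Field K] (Tw : Twisted G K) (hφ : ∃ g ∈ commutator G, Tw.φ g ≠ 0)
    (g₁ g₂ : G) (h : Indep (Tw.χ g₁ : K) (Tw.χ g₂ : K))
    (Ω : Type) [Fintype Ω] [Nonempty Ω] (s : Ω → G) (σ : Ω ≃ Ω) (hσ : ∀ ω, s (σ ω) = (s ω)⁻¹)
    (hs : Subgroup.closure (Set.range s) = ⊤) :
    Filter.Tendsto (fun n : ℕ => Real.log (expectedLength s n) / Real.log n) Filter.atTop (nhds 1) :=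
  main_of_freePlane Tw hφ g₁ g₂ (Tw.χ g₁) (Tw.χ g₂) (Subgroup.subset_closure (by simp)) (Subgroup.subset_closure (by simp))
    (freePlane_of_Indep _ _ h) Ω s σ hσ hs

end Pool.Agent.Helper13.MT
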