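import Pool.Agent.Helper13.MS.MOA2
import Pool.Agent.Helper13.MT.A1
import Pool.Agent.Helper74.MU.U
import Pool.Agent.Helper74.MU.BR1
import Pool.Agent.Helper74.MU.BR2

/-!
# MT-Br: bridges (helper74)

(br1) Cayley-Hamilton on the finite dimensional space `ℚ ⊗ G'`, clear denominators; the torsion subgroup of the noetherian module `G'` has bounded exponent.
(br2) `not RelB`: fix `p, g, h`; `𝒯 = {F(c_g, c_h) : F nonzero mod p}` is multiplicative; maximal submodule `N` of `G'` such that no element of `𝒯` kills `G'/N`; then every ring element is zero or injective on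
`G'/N`; `functional_of_torsionfree`.
-/

set_option autoImplicit false

namespace Pool.Agent.Helper13.MT

open Pool.Agent.Helper13.MS

open Pool.Agent.Helper74.MU

theorem br1 {G : Type} [Group G] [Group.FG G] (hab : ∀ a ∈ commutator G, ∀ b ∈ commutator G, a * b = b * a)
    (h : FiniteDimensional ℚ (TensorProduct ℤ ℚ (Additive (Abelianization (commutator G))))) : RelA (commutator G) :=
  relA_of_finite hab h

theorem br2 {G : Type} [Group G] [Group.FG G] (hab : ∀ a ∈ commutator G, ∀ b ∈ commutator G, a * b = b * a)
    (h : ¬ RelB (commutator G)) :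
    ∃ (K : Type) (_ : Field K) (Tw : Twisted G K), (∃ g ∈ commutator G, Tw.φ g ≠ 0) ∧
      ∃ g₁ g₂ : G, FreePlane (Tw.χ g₁ : K) (Tw.χ g₂ : K) :=
  twisted_of_not_relB hab h

end Pool.Agent.Helper13.MT
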