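import Pool.Agent.Helper13.MS.QE

/-!
# MT-L2: moments of a harmonic cocycle for a permutation representation

`b (g h) γ = b g γ + b h ((q g)⁻¹ γ)`, `∑_ω b (s ω) γ = 0` for all `γ`.  `N g = ∑_γ (b g γ)^2`.
(1) `N (g s) = N g + 2 ∑_γ b g γ * b s ((q g)⁻¹ γ) + N s` (translation of `γ`), the middle term averages to zero: `Qop s N = N + v`, `v = (∑_ω N (s ω)) / |Ω|`; so `(Qop s)^[n] N 1 = n v` (`b 1 = 0`).
(2) with `X = N g`, `Y = N (s ω) ≤ K2`, `Z = ∑_γ b g γ b (s ω) ((q g)⁻¹ γ)`, `Z^2 ≤ X Y`: `N (g s)^2 = (X + 2Z + Y)^2`, average `≤ X^2 + 6 K2 X + 4 K2 √(K2 X) + K2^2 ≤ X^2 + 8 K2 X + 3 K2^2`, so by (1) and induction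
`(Qop s)^[n] (N^2) 1 ≤ 4 n^2 v K2 + 3 n K2^2 ≤ C n^2`.
(3) `N g ≤ K2 (wordLength g)^2` (Minkowski: `√N (g h) ≤ √N g + √N h`, `√N (s ω) ≤ √K2`; a word of minimal length exists).
(4) with `x = √(N g)`: `x ≥ x^2/a - x^4/(4 a^3)` for `a > 0` (`AM-GM`: `x + x^4/(4a^3) ≥ x^2/a`, since `x (1 - x/a + x^3/(4a^3)) ≥ 0`: the cubic `1 - u + u^3/4 ≥ 0` for `u ≥ 0`);
take `a = A √n` with `A` large: `expectedLength s n * √K2 ≥ E x ≥ n v / a - C n^2 / (4 a^3) ≥ c √n`.
-/

set_option autoImplicit false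

namespace Pool.Agent.Helper13.MT

open Pool.Agent.Helper13.MS

section

variable {G Γ : Type} [Group G] [Group Γ] [Fintype Γ]

set_option linter.unusedSectionVars false

private noncomputable def nn (b : G → Γ → ℝ) (g : G) : ℝ := ∑ γ, (b g γ) ^ 2

private noncomputable def zz (q : G →* Γ) (b : G → Γ → ℝ) (g h : G) : ℝ := ∑ γ, b g γ * b h ((q g)⁻¹ * γ)

private theorem nn_nonneg (b : G → Γ → ℝ) (g : G) : 0 ≤ nn b g := Finset.sum_nonneg fun _ _ => sq_nonneg _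

private theorem shift (q : G →* Γ) (b : G → Γ → ℝ) (g h : G) : ∑ γ, (b h ((q g)⁻¹ * γ)) ^ 2 = nn b h :=
  Equiv.sum_comp (Equiv.mulLeft (q g)⁻¹) fun γ => (b h γ) ^ 2

private theorem nn_mul (q : G →* Γ) (b : G → Γ → ℝ) (hb : ∀ g h γ, b (g * h) γ = b g γ + b h ((q g)⁻¹ * γ)) (g h : G) :
    nn b (g * h) = nn b g + 2 * zz q b g h + nn b h := by
  rw [← shift q b g h]
  unfold nn zz
  rw [Finset.mul_sum, ← Finset.sum_add_distrib, ← Finset.sum_add_distrib]
  refine Finset.sum_congr rfl fun γ _ => ?_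
  rw [hb]
  ring

private theorem zz_sq (q : G →* Γ) (b : G → Γ → ℝ) (g h : G) : zz q b g h ^ 2 ≤ nn b g * nn b h := by
  rw [← shift q b g h]
  exact Finset.sum_mul_sq_le_sq_mul_sq _ _ _

private theorem sqrt_mul_le (q : G →* Γ) (b : G → Γ → ℝ) (hb : ∀ g h γ, b (g * h) γ = b g γ + b h ((q g)⁻¹ * γ)) (g h : G) :
    Real.sqrt (nn b (g * h)) ≤ Real.sqrt (nn b g) + Real.sqrt (nn b h) := by
  have hx := nn_nonneg b g
  have hy := nn_nonneg b h
  rw [Real.sqrt_le_left (by positivity)]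
  have h1 : zz q b g h ≤ Real.sqrt (nn b g) * Real.sqrt (nn b h) := by
    rw [← Real.sqrt_mul hx]
    exact Real.le_sqrt_of_sq_le (zz_sq q b g h)
  have h2 := Real.sq_sqrt hx
  have h3 := Real.sq_sqrt hy
  rw [nn_mul q b hb]
  nlinarith

private theorem cubic (x a : ℝ) (hx : 0 ≤ x) (ha : 0 < a) : x ^ 2 / a - x ^ 4 / (4 * a ^ 3) ≤ x := by
  have h1 : 0 ≤ x ^ 3 - 4 * a ^ 2 * x + 4 * a ^ 3 := by
    have h2 : 0 ≤ (x - 6 / 5 * a) ^ 2 * (x + 12 / 5 * a) := by positivity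
    have h3 : 0 ≤ a ^ 2 * x := by positivity
    have h4 : 0 ≤ a ^ 3 := by positivity
    nlinarith
  have h5 : x - (x ^ 2 / a - x ^ 4 / (4 * a ^ 3)) = x * (x ^ 3 - 4 * a ^ 2 * x + 4 * a ^ 3) / (4 * a ^ 3) := by
    field_simp
    ring
  have h6 : 0 ≤ x * (x ^ 3 - 4 * a ^ 2 * x + 4 * a ^ 3) / (4 * a ^ 3) := by positivity
  linarith

end

theorem sqrt_lower_of_cocycle {G Ω Γ : Type} [Group G] [Fintype Ω] [Nonempty Ω] [Group Γ] [Fintype Γ] (s : Ω → G) (σ : Ω ≃ Ω)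
    (hσ : ∀ ω, s (σ ω) = (s ω)⁻¹) (hs : Subgroup.closure (Set.range s) = ⊤) (q : G →* Γ) (b : G → Γ → ℝ)
    (hb : ∀ g h γ, b (g * h) γ = b g γ + b h ((q g)⁻¹ * γ)) (hharm : ∀ γ, ∑ ω, b (s ω) γ = 0)
    (hne : ∃ ω γ, b (s ω) γ ≠ 0) :
    ∃ c : ℝ, 0 < c ∧ ∀ n : ℕ, 1 ≤ n → c * Real.sqrt n ≤ expectedLength s n := by
  classical
  set d : ℝ := (Fintype.card Ω : ℝ) with hd
  have hd0 : 0 < d := by rw [hd]; exact_mod_cast Fintype.card_pos
  have hd1 : 1 ≤ d := by rw [hd]; exact_mod_cast Fintype.card_pos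
  set K : ℝ := ∑ ω, nn b (s ω) with hK
  have hKω : ∀ ω, nn b (s ω) ≤ K := fun ω =>
    Finset.single_le_sum (f := fun ω => nn b (s ω)) (fun ω _ => nn_nonneg b _) (Finset.mem_univ ω)
  have hKpos : 0 < K := by
    obtain ⟨ω, γ, h⟩ := hne
    have h1 : (b (s ω) γ) ^ 2 ≤ nn b (s ω) :=
      Finset.single_le_sum (f := fun γ => (b (s ω) γ) ^ 2) (fun _ _ => sq_nonneg _) (Finset.mem_univ γ)
    have h2 : 0 < (b (s ω) γ) ^ 2 := by positivity
    linarith [hKω ω]
  set v : ℝ := K / d with hv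
  have hvpos : 0 < v := by positivity
  have hvK : v ≤ K := by rw [hv, div_le_iff₀ hd0]; nlinarith
  have hvd : d * v = K := by rw [hv]; field_simp
  have hb1 : ∀ γ, b 1 γ = 0 := by
    intro γ
    have h := hb 1 1 γ
    rw [mul_one, map_one, inv_one, one_mul] at h
    linarith
  have hN1 : nn b 1 = 0 := by
    unfold nn
    simp [hb1]
  have hZ : ∀ g, ∑ ω, zz q b g (s ω) = 0 := by
    intro g
    unfold zz
    rw [Finset.sum_comm]
    refine Finset.sum_eq_zero fun γ _ => ?_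
    rw [← Finset.mul_sum, hharm, mul_zero]
  -- first moment
  have hQ1 : ∀ g, Qop s (nn b) g = 1 * nn b g + v := by
    intro g
    have h1 : ∑ ω, nn b (g * s ω) = d * nn b g + K := by
      have h2 : ∀ ω, nn b (g * s ω) = nn b g + 2 * zz q b g (s ω) + nn b (s ω) := fun ω => nn_mul q b hb g (s ω)
      simp only [h2]
      rw [Finset.sum_add_distrib, Finset.sum_add_distrib, ← Finset.mul_sum, hZ, Finset.sum_const, Finset.card_univ,
        nsmul_eq_mul]
      ring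
    show (∑ ω, nn b (g * s ω)) / d = _
    rw [h1, div_eq_iff hd0.ne', ← hvd]
    ring
  have m2 : ∀ n : ℕ, (Qop s)^[n] (nn b) 1 = n * v := by
    intro n
    induction n with
    | zero => simp [hN1]
    | succ n ih =>
      have h1 : Qop s (nn b) = fun g => 1 * nn b g + v := funext hQ1
      rw [Function.iterate_succ_apply, h1, Qop_iterate_affine, ih]
      push_cast
      ring
  -- second moment
  have hQ2 : ∀ g, Qop s (fun g => (nn b g) ^ 2) g ≤ (nn b g) ^ 2 + (8 * K * nn b g + 3 * K ^ 2) := by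
    intro g
    have hx := nn_nonneg b g
    have h1 : ∀ ω, (nn b (g * s ω)) ^ 2 ≤
        (nn b g) ^ 2 + (8 * K * nn b g + 3 * K ^ 2) + 4 * nn b g * zz q b g (s ω) := by
      intro ω
      have hy := nn_nonneg b (s ω)
      have hyK := hKω ω
      have hz := zz_sq q b g (s ω)
      rw [nn_mul q b hb g (s ω)]
      generalize nn b g = X at *
      generalize nn b (s ω) = Y at *
      generalize zz q b g (s ω) = Z at *
      have h2 : X * Y ≤ X * K := mul_le_mul_of_nonneg_left hyK hx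
      have h3 : Y ^ 2 ≤ K ^ 2 := pow_le_pow_left₀ hy hyK 2
      nlinarith [sq_nonneg (Z - Y)]
    show (∑ ω, (nn b (g * s ω)) ^ 2) / d ≤ _
    rw [div_le_iff₀ hd0]
    calc ∑ ω, (nn b (g * s ω)) ^ 2
        ≤ ∑ ω, ((nn b g) ^ 2 + (8 * K * nn b g + 3 * K ^ 2) + 4 * nn b g * zz q b g (s ω)) :=
          Finset.sum_le_sum fun ω _ => h1 ω
      _ = ((nn b g) ^ 2 + (8 * K * nn b g + 3 * K ^ 2)) * d := by
          rw [Finset.sum_add_distrib, ← Finset.mul_sum, hZ, Finset.sum_const, Finset.card_univ, nsmul_eq_mul]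
          ring
  have m4 : ∀ n : ℕ, (Qop s)^[n] (fun g => (nn b g) ^ 2) 1 ≤ 7 * K ^ 2 * (n : ℝ) ^ 2 := by
    intro n
    induction n with
    | zero => simp [hN1]
    | succ n ih =>
      rw [Function.iterate_succ_apply]
      refine (Qop_iterate_mono s hQ2 n 1).trans ?_
      rw [Qop_iterate_add, Qop_iterate_affine, m2]
      push_cast
      have hn : (0 : ℝ) ≤ n := Nat.cast_nonneg n
      have h1 : 8 * K * (n * v) ≤ 8 * K * (n * K) := by
        refine mul_le_mul_of_nonneg_left (mul_le_mul_of_nonneg_left hvK hn) (by positivity)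
      nlinarith [mul_nonneg hn (sq_nonneg K), sq_nonneg K]
  -- word length
  have hW : ∀ g, Real.sqrt (nn b g) ≤ Real.sqrt K * (wordLength (Set.range s) g : ℝ) := by
    intro g
    obtain ⟨w, hw, rfl⟩ := exists_word s σ hσ hs g
    rw [← hw]
    clear hw
    induction w with
    | nil => simp [hN1]
    | cons ω w ih =>
      rw [List.map_cons, List.prod_cons, List.length_cons]
      refine (sqrt_mul_le q b hb _ _).trans ?_
      have h1 := Real.sqrt_le_sqrt (hKω ω)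
      push_cast
      nlinarith
  -- conclusion
  set A : ℝ := Real.sqrt (7 * K ^ 2 / (2 * v)) with hA
  have hApos : 0 < A := Real.sqrt_pos.mpr (by positivity)
  have hA2 : A ^ 2 = 7 * K ^ 2 / (2 * v) := Real.sq_sqrt (by positivity)
  have hsK : 0 < Real.sqrt K := Real.sqrt_pos.mpr hKpos
  refine ⟨v / (2 * A * Real.sqrt K), by positivity, fun n hn => ?_⟩
  have hn0 : (0 : ℝ) < n := by exact_mod_cast hn
  set r : ℝ := Real.sqrt n with hr
  have hr0 : 0 < r := Real.sqrt_pos.mpr hn0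
  have hr2 : r ^ 2 = n := Real.sq_sqrt hn0.le
  have ha : 0 < A * r := by positivity
  have h1 : ∀ g, (1 / (A * r)) * nn b g + (-(1 / (4 * (A * r) ^ 3))) * (nn b g) ^ 2 ≤
      Real.sqrt K * (wordLength (Set.range s) g : ℝ) := by
    intro g
    refine le_trans ?_ (hW g)
    have h2 := cubic (Real.sqrt (nn b g)) (A * r) (Real.sqrt_nonneg _) ha
    have h3 : Real.sqrt (nn b g) ^ 2 = nn b g := Real.sq_sqrt (nn_nonneg b g)
    have h4 : Real.sqrt (nn b g) ^ 4 = (nn b g) ^ 2 := by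
      rw [show (4 : ℕ) = 2 * 2 from rfl, pow_mul, h3]
    rw [h3, h4] at h2
    refine le_trans (le_of_eq ?_) h2
    ring
  have h5 := Qop_iterate_mono s h1 n 1
  rw [Qop_iterate_add, Qop_iterate_smul, Qop_iterate_smul, Qop_iterate_smul, m2, ← expectedLength_eq] at h5
  have h6 : (1 / (4 * (A * r) ^ 3)) * (Qop s)^[n] (fun g => (nn b g) ^ 2) 1 ≤ (1 / (4 * (A * r) ^ 3)) * (7 * K ^ 2 * (n : ℝ) ^ 2) :=
    mul_le_mul_of_nonneg_left (m4 n) (by positivity)
  have h7 : (1 / (A * r)) * (n * v) - (1 / (4 * (A * r) ^ 3)) * (7 * K ^ 2 * (n : ℝ) ^ 2) = v * r / (2 * A) := by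
    have h8 : 7 * K ^ 2 = A ^ 2 * (2 * v) := by
      rw [hA2]
      field_simp
    rw [h8, ← hr2]
    field_simp
    ring
  have h9 : v * r / (2 * A) ≤ Real.sqrt K * expectedLength s n := by linarith
  rw [div_mul_eq_mul_div, div_le_iff₀ (by positivity)]
  have h10 : v * r ≤ Real.sqrt K * expectedLength s n * (2 * A) := by
    rwa [div_le_iff₀ (by positivity)] at h9
  nlinarith

end Pool.Agent.Helper13.MT
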