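import Pool.Agent.Helper13.MS.Defs

/-!
# MT-Q1a

`Additive (Abelianization G)` is an infinite finitely generated abelian group, so it has a nonzero homomorphism to `ℤ` (otherwise it is a finite torsion module: structure theorem
`AddCommGroup.equiv_free_prod_directSum_zmod`, or the quotient by the torsion is free).
-/

set_option autoImplicit false

namespace Pool.Agent.Helper13.MT

open Pool.Agent.Helper13.MS

theorem exists_hom {G : Type} [Group G] [Group.FG G] (h : Infinite (Abelianization G)) :
    ∃ f : G →* Multiplicative ℤ, ∃ g, f g ≠ 1 := by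
  have hsurj : Function.Surjective (Abelianization.of : G →* Abelianization G) :=
    QuotientGroup.mk_surjective
  have hfg : Group.FG (Abelianization G) := Group.fg_of_surjective hsurj
  obtain ⟨ι, j, hι, hj, p, hp, e, ⟨E⟩⟩ :=
    CommGroup.equiv_free_prod_prod_multiplicative_zmod (Abelianization G)
  have hne : Nonempty j := by
    by_contra hcon
    rw [not_nonempty_iff] at hcon
    have : ∀ i, NeZero (p i ^ e i) := fun i => ⟨pow_ne_zero _ (hp i).ne_zero⟩
    have hfin : Finite ((j → Multiplicative ℤ) × ((i : ι) → Multiplicative (ZMod (p i ^ e i)))) := by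
      have h1 : ∀ i, Finite (Multiplicative (ZMod (p i ^ e i))) := fun i =>
        Finite.of_equiv (ZMod (p i ^ e i)) Multiplicative.ofAdd
      infer_instance
    have h2 : Finite (Abelianization G) := Finite.of_equiv _ E.symm.toEquiv
    exact not_finite (Abelianization G)
  obtain ⟨i⟩ := hne
  let f : G →* Multiplicative ℤ :=
    ((Pi.evalMonoidHom (fun _ : j => Multiplicative ℤ) i).comp
      (MonoidHom.fst (j → Multiplicative ℤ) ((i : ι) → Multiplicative (ZMod (p i ^ e i))))).comp
      (E.toMonoidHom.comp (Abelianization.of : G →* Abelianization G))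
  obtain ⟨g, hg⟩ := hsurj (E.symm (fun _ => Multiplicative.ofAdd 1, 1))
  refine ⟨f, g, ?_⟩
  have h1 : f g = Multiplicative.ofAdd 1 := by
    show (E (Abelianization.of g)).1 i = _
    rw [hg, E.apply_symm_apply]
  rw [h1]
  intro h2
  have h3 : (1 : ℤ) = 0 := Multiplicative.ofAdd.injective h2
  exact one_ne_zero h3

end Pool.Agent.Helper13.MT
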