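import Pool.Agent.Helper13.MS.QE

/-!
# MT-Q1b: finite groups have exponent zero

Let `p_n` be the law of `X_n`.  If all `s ω` are equal to one element `g` then `g⁻¹ = g`, `G = {1, g}` and `expectedLength s n ∈ {0, 1}` (the walk is deterministic), so the logarithm is `0`.
Otherwise there are `s ω ≠ s ω'` and for every `n ≥ 1` and every `x`: `P (X_n = x) ≤ 1 - 1/|Ω|` (condition on the first `n-1` letters), so `P (X_n ≠ 1) ≥ 1/|Ω|` and
`1/|Ω| ≤ expectedLength s n ≤ C` (`wordLength` is bounded on a finite group, and at least `1` for elements `≠ 1`: `exists_word`); so the quotient tends to `0`.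
-/

set_option autoImplicit false

namespace Pool.Agent.Helper13.MT

open Pool.Agent.Helper13.MS

/-- bounded logarithm -/
private theorem tendsto_of_bound24 (f : ℕ → ℝ) (B : ℝ) (h : ∀ n, 1 ≤ n → |Real.log (f n)| ≤ B) :
    Filter.Tendsto (fun n : ℕ => Real.log (f n) / Real.log n) Filter.atTop (nhds 0) := by
  have hlog : Filter.Tendsto (fun n : ℕ => Real.log n) Filter.atTop Filter.atTop :=
    Real.tendsto_log_atTop.comp tendsto_natCast_atTop_atTop
  have h1 : Filter.Tendsto (fun n : ℕ => B / Real.log n) Filter.atTop (nhds 0) :=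
    hlog.const_div_atTop B
  apply squeeze_zero_norm' _ h1
  filter_upwards [Filter.eventually_ge_atTop 2] with n hn
  have h2 : 0 < Real.log n := Real.log_pos (by exact_mod_cast (by omega : 1 < n))
  rw [Real.norm_eq_abs, abs_div, abs_of_pos h2]
  exact div_le_div_of_nonneg_right (h n (by omega)) h2.le

private theorem one_le_wl24 {G Ω : Type} [Group G] [Fintype Ω] (s : Ω → G) (σ : Ω ≃ Ω)
    (hσ : ∀ ω, s (σ ω) = (s ω)⁻¹) (hs : Subgroup.closure (Set.range s) = ⊤) {g : G} (hg : g ≠ 1) :
    1 ≤ wordLength (Set.range s) g := by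
  obtain ⟨w, hw, hg'⟩ := exists_word s σ hσ hs g
  rw [← hw]
  by_contra hcon
  have h1 : w = [] := by
    rw [← List.length_eq_zero_iff]
    omega
  rw [h1] at hg'
  exact hg hg'.symm

theorem tendsto_finite {G Ω : Type} [Group G] [Finite G] [Fintype Ω] [Nonempty Ω] (s : Ω → G) (σ : Ω ≃ Ω)
    (hσ : ∀ ω, s (σ ω) = (s ω)⁻¹) (hs : Subgroup.closure (Set.range s) = ⊤) :
    Filter.Tendsto (fun n : ℕ => Real.log (expectedLength s n) / Real.log n) Filter.atTop (nhds 0) := by
  obtain ⟨L, hL⟩ : ∃ L : G → ℝ, L = fun g => (wordLength (Set.range s) g : ℝ) := ⟨_, rfl⟩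
  have hcard : (0 : ℝ) < Fintype.card Ω := by exact_mod_cast Fintype.card_pos
  by_cases hc : ∃ ω ω', s ω ≠ s ω'
  · obtain ⟨ω₀, ω₁, h01⟩ := hc
    obtain ⟨C, hC⟩ : ∃ C : ℝ, ∀ g, L g ≤ C := by
      obtain ⟨C, hC⟩ := (Set.finite_range L).bddAbove
      exact ⟨C, fun g => hC ⟨g, rfl⟩⟩
    have hL0 : ∀ g, 0 ≤ L g := fun g => by
      rw [hL]
      exact Nat.cast_nonneg _
    have hL1 : ∀ g, g ≠ 1 → 1 ≤ L g := fun g hg => by
      rw [hL]
      show (1 : ℝ) ≤ (wordLength (Set.range s) g : ℝ)
      exact_mod_cast one_le_wl24 s σ hσ hs hg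
    have hQ : ∀ g, 1 / (Fintype.card Ω : ℝ) ≤ Qop s L g := by
      intro g
      unfold Qop
      apply div_le_div_of_nonneg_right _ hcard.le
      have h1 : g * s ω₀ ≠ 1 ∨ g * s ω₁ ≠ 1 := by
        by_contra hcon
        push Not at hcon
        exact h01 (mul_left_cancel (hcon.1.trans hcon.2.symm))
      rcases h1 with h1 | h1
      · exact (hL1 _ h1).trans (Finset.single_le_sum (f := fun ω => L (g * s ω))
          (fun ω _ => hL0 _) (Finset.mem_univ ω₀))
      · exact (hL1 _ h1).trans (Finset.single_le_sum (f := fun ω => L (g * s ω))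
          (fun ω _ => hL0 _) (Finset.mem_univ ω₁))
    have hlow : ∀ n, 1 ≤ n → 1 / (Fintype.card Ω : ℝ) ≤ expectedLength s n := by
      intro n hn
      obtain ⟨k, rfl⟩ := Nat.exists_eq_add_of_le' hn
      rw [expectedLength_eq, Function.iterate_succ_apply, ← hL]
      have h1 := Qop_iterate_mono s (f := fun _ => 1 / (Fintype.card Ω : ℝ)) hQ k 1
      rw [Qop_iterate_const] at h1
      exact h1
    have hup : ∀ n, expectedLength s n ≤ C := by
      intro n
      rw [expectedLength_eq, ← hL]
      have h1 := Qop_iterate_mono s (g := fun _ => C) hC n 1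
      rw [Qop_iterate_const] at h1
      exact h1
    apply tendsto_of_bound24 _ (max (Real.log C) (Real.log (Fintype.card Ω)))
    intro n hn
    have h1 := hlow n hn
    have h2 := hup n
    have h3 : 0 < 1 / (Fintype.card Ω : ℝ) := by positivity
    rw [abs_le]
    constructor
    · have h4 := Real.log_le_log h3 h1
      rw [one_div, Real.log_inv] at h4
      have h5 := le_max_right (Real.log C) (Real.log (Fintype.card Ω))
      linarith
    · have h4 := Real.log_le_log (h3.trans_le h1) h2
      exact h4.trans (le_max_left _ _)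
  · push Not at hc
    obtain ⟨ω₀⟩ : Nonempty Ω := inferInstance
    have hsc : ∀ ω, s ω = s ω₀ := fun ω => hc ω ω₀
    have hinv : s ω₀ * s ω₀ = 1 := by
      have h1 := hσ ω₀
      rw [hsc] at h1
      nth_rewrite 1 [h1]
      exact inv_mul_cancel _
    have hQ1 : ∀ (f : G → ℝ) (x : G), Qop s f x = f (x * s ω₀) := by
      intro f x
      unfold Qop
      simp only [hsc]
      rw [Finset.sum_const, Finset.card_univ, nsmul_eq_mul, mul_div_cancel_left₀ _ hcard.ne']
    have hit : ∀ (n : ℕ) (x : G), (Qop s)^[n] L x = L (x * s ω₀ ^ n) := by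
      intro n
      induction n with
      | zero =>
        intro x
        rw [pow_zero, mul_one]
        rfl
      | succ n ih =>
        intro x
        rw [Function.iterate_succ_apply', hQ1, ih, mul_assoc, ← pow_succ']
    apply tendsto_of_bound24 _ 0
    intro n _
    rw [expectedLength_eq, ← hL, hit, one_mul]
    have hpow : ∀ n : ℕ, s ω₀ ^ n = 1 ∨ s ω₀ ^ n = s ω₀ := by
      intro n
      induction n with
      | zero => exact Or.inl (pow_zero _)
      | succ n ih =>
        rcases ih with h1 | h1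
        · right
          rw [pow_succ, h1, one_mul]
        · left
          rw [pow_succ, h1, hinv]
    have hle : wordLength (Set.range s) (s ω₀ ^ n) ≤ 1 := by
      rcases hpow n with h1 | h1
      · rw [h1, wordLength_one]
        exact Nat.zero_le _
      · rw [h1]
        have h2 := wordLength_ofFn_le s 1 (fun _ => ω₀)
        simpa using h2
    rw [hL]
    rcases Nat.le_one_iff_eq_zero_or_eq_one.1 hle with h1 | h1
    · simp [h1]
    · simp [h1]

end Pool.Agent.Helper13.MT
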