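import Pool.Agent.Helper13.MT.Br
import Pool.Agent.Helper13.MT.L3
import Pool.Agent.Helper13.MT.Q1a
import Pool.Agent.Helper13.MT.Q1b
import Pool.Agent.Helper13.MT.Q1c
import Pool.Agent.Helper13.MS.Main

/-!
# MT: final assembly for finitely presented metabelian groups
-/

set_option autoImplicit false

namespace Pool.Agent.Helper13.MT

open Pool.Agent.Helper13.MS

theorem el_eq {G Ω : Type} [Group G] [Fintype Ω] (s : Ω → G) (n : ℕ) : Pool.Agent.Helper74.MU.el s n = expectedLength s n := rfl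

theorem main (G : Type) [Group G] [Group.IsFinitelyPresented G]
    (hab : ∀ a ∈ commutator G, ∀ b ∈ commutator G, a * b = b * a) :
    ∃ β : ℝ, (β = 0 ∨ β = 1 / 2 ∨ β = 1) ∧
      ∀ (Ω : Type) [Fintype Ω] [Nonempty Ω] (s : Ω → G) (σ : Ω ≃ Ω), (∀ ω, s (σ ω) = (s ω)⁻¹) →
        Subgroup.closure (Set.range s) = ⊤ →
        Filter.Tendsto (fun n : ℕ => Real.log (expectedLength s n) / Real.log n) Filter.atTop (nhds β) := by
  have hfg : Group.FG G := by
    obtain ⟨n, φ, hφ, -⟩ := (inferInstance : Group.IsFinitelyPresented G).out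
    exact Group.fg_of_surjective hφ
  by_cases hfd : FiniteDimensional ℚ (TensorProduct ℤ ℚ (Additive (Abelianization (commutator G))))
  swap
  · exact ⟨1, by simp, fun Ω _ _ s σ hσ hs => Pool.Agent.Helper13.MS.main G hfd Ω s σ hσ hs⟩
  by_cases hB : Pool.Agent.Helper74.MU.RelB (commutator G)
  swap
  · obtain ⟨K, _, Tw, hφ, g₁, g₂, h12⟩ := br2 hab hB
    exact ⟨1, by simp, fun Ω _ _ s σ hσ hs => main_of_freePlane Tw hφ g₁ g₂ (Tw.χ g₁) (Tw.χ g₂)
      (Subgroup.subset_closure (by simp)) (Subgroup.subset_closure (by simp)) h12 Ω s σ hσ hs⟩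
  have hA := br1 hab hfd
  by_cases hG : Finite G
  · exact ⟨0, by simp, fun Ω _ _ s σ hσ hs => tendsto_finite s σ hσ hs⟩
  have hinf : Infinite G := not_finite_iff_infinite.mp hG
  refine ⟨1 / 2, by simp, fun Ω _ _ s σ hσ hs => ?_⟩
  have hup : ∀ ε : ℝ, 0 < ε → ∃ C : ℝ, 0 < C ∧ ∀ n : ℕ, 1 ≤ n → expectedLength s n ≤ C * (n : ℝ) ^ (1 / 2 + ε) :=
    fun ε hε => Pool.Agent.Helper74.MU.upper s σ hσ hs hab hA hB ε hε
  have hlow : ∃ c : ℝ, 0 < c ∧ ∀ n : ℕ, 1 ≤ n → c * Real.sqrt n ≤ expectedLength s n := by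
    by_cases hab' : Finite (Abelianization G)
    · exact sqrt_lower_of_finite_abelianization s σ hσ hs hab hab' hinf
    · obtain ⟨f, hf⟩ := exists_hom (not_finite_iff_infinite.mp hab')
      exact Pool.Agent.Helper74.MU.lower s σ hσ hs f hf
  obtain ⟨c, hc, hlow⟩ := hlow
  exact tendsto_half _ c hc hlow hup

end Pool.Agent.Helper13.MT
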