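import Pool.Agent.Helper13.MS.QE

/-!
# MT-L1: harmonic correction on a finite quotient

`Γ` finite, `q : G →* Γ` onto, the `s ω` generate `G` and are closed under inverses.  On `E0 = {v : Γ → ℝ | ∑ v = 0}` the operator
`(S v) γ = (∑_ω v ((q (s ω))⁻¹ γ)) / |Ω|` maps `E0` to itself and `v = S v` implies `v` constant (take `γ` with `v γ` maximal: all `v ((q (s ω))⁻¹ γ)` are maximal too; the `q (s ω)`
generate `Γ`), so `v = 0` on `E0`: `1 - S` is injective, hence surjective on the finite dimensional space `E0`.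
-/

set_option autoImplicit false

namespace Pool.Agent.Helper13.MT

open Classical in
/-- The maximum principle. -/
private theorem const63 {Ω Γ : Type} [Fintype Ω] [Nonempty Ω] [Group Γ] [Fintype Γ] (t : Ω → Γ)
    (ht : Subgroup.closure (Set.range t) = ⊤) (v : Γ → ℝ)
    (hv : ∀ γ, v γ = (∑ ω, v ((t ω)⁻¹ * γ)) / (Fintype.card Ω : ℝ)) : ∃ c, ∀ γ, v γ = c := by
  obtain ⟨γ₀, -, hmax⟩ := Finset.exists_max_image (Finset.univ : Finset Γ) v ⟨1, Finset.mem_univ _⟩
  have hcard : (0 : ℝ) < Fintype.card Ω := by exact_mod_cast Fintype.card_pos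
  -- the set of the maximal points
  let M : Finset Γ := Finset.univ.filter fun γ => v γ = v γ₀
  have hM : ∀ γ, γ ∈ M ↔ v γ = v γ₀ := fun γ => by simp [M]
  have hstep : ∀ γ ∈ M, ∀ ω, (t ω)⁻¹ * γ ∈ M := by
    intro γ hγ ω
    rw [hM] at hγ ⊢
    have h1 : ∑ ω, (v γ₀ - v ((t ω)⁻¹ * γ)) = 0 := by
      have h2 := hv γ
      rw [hγ, eq_div_iff hcard.ne'] at h2
      rw [Finset.sum_sub_distrib, Finset.sum_const, Finset.card_univ, nsmul_eq_mul]
      linarith
    have h2 : ∀ ω ∈ (Finset.univ : Finset Ω), 0 ≤ v γ₀ - v ((t ω)⁻¹ * γ) := fun ω _ => by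
      linarith [hmax ((t ω)⁻¹ * γ) (Finset.mem_univ _)]
    have h3 := (Finset.sum_eq_zero_iff_of_nonneg h2).1 h1 ω (Finset.mem_univ _)
    linarith
  have hback : ∀ γ ∈ M, ∀ ω, t ω * γ ∈ M := by
    intro γ hγ ω
    have h1 : M.image (fun γ => (t ω)⁻¹ * γ) = M := by
      apply Finset.eq_of_subset_of_card_le
      · intro x hx
        obtain ⟨y, hy, rfl⟩ := Finset.mem_image.1 hx
        exact hstep y hy ω
      · rw [Finset.card_image_of_injective _ (mul_right_injective _)]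
    rw [← h1] at hγ
    obtain ⟨y, hy, hyγ⟩ := Finset.mem_image.1 hγ
    have h2 : t ω * γ = y := by rw [← hyγ, mul_inv_cancel_left]
    rw [h2]
    exact hy
  let H : Subgroup Γ :=
    { carrier := {g | ∀ γ ∈ M, g * γ ∈ M ∧ g⁻¹ * γ ∈ M}
      one_mem' := fun γ hγ => by simpa using hγ
      mul_mem' := by
        intro a b ha hb γ hγ
        refine ⟨?_, ?_⟩
        · rw [mul_assoc]
          exact (ha _ (hb γ hγ).1).1
        · rw [mul_inv_rev, mul_assoc]
          exact (hb _ (ha γ hγ).2).2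
      inv_mem' := by
        intro a ha γ hγ
        rw [inv_inv]
        exact ⟨(ha γ hγ).2, (ha γ hγ).1⟩ }
  have hH : H = ⊤ := by
    rw [eq_top_iff, ← ht, Subgroup.closure_le]
    rintro _ ⟨ω, rfl⟩ γ hγ
    exact ⟨hback γ hγ ω, hstep γ hγ ω⟩
  refine ⟨v γ₀, fun γ => ?_⟩
  have h1 : γ * γ₀⁻¹ ∈ H := by
    rw [hH]
    trivial
  have h2 := (h1 γ₀ ((hM γ₀).2 rfl)).1
  rw [inv_mul_cancel_right] at h2
  exact (hM γ).1 h2

theorem exists_harmonic {G Ω Γ : Type} [Group G] [Fintype Ω] [Nonempty Ω] [Group Γ] [Fintype Γ] (s : Ω → G)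
    (hs : Subgroup.closure (Set.range s) = ⊤) (q : G →* Γ) (hq : Function.Surjective q) (w : Γ → ℝ) (hw : ∑ γ, w γ = 0) :
    ∃ v : Γ → ℝ, ∀ γ, w γ + (∑ ω, v ((q (s ω))⁻¹ * γ)) / (Fintype.card Ω : ℝ) - v γ = 0 := by
  have hcard : (0 : ℝ) < Fintype.card Ω := by exact_mod_cast Fintype.card_pos
  have ht : Subgroup.closure (Set.range fun ω => q (s ω)) = ⊤ := by
    have h1 : (Set.range fun ω => q (s ω)) = q '' Set.range s := by
      rw [← Set.range_comp]
      rfl
    rw [h1, ← MonoidHom.map_closure, hs, ← MonoidHom.range_eq_map, MonoidHom.range_eq_top.2 hq]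
  let T : (Γ → ℝ) →ₗ[ℝ] (Γ → ℝ) :=
    { toFun := fun v γ => v γ - (∑ ω, v ((q (s ω))⁻¹ * γ)) / (Fintype.card Ω : ℝ)
      map_add' := by
        intro v v'
        ext γ
        simp only [Pi.add_apply, Finset.sum_add_distrib]
        ring
      map_smul' := by
        intro c v
        ext γ
        simp only [Pi.smul_apply, smul_eq_mul, RingHom.id_apply, ← Finset.mul_sum]
        ring }
  let E : Submodule ℝ (Γ → ℝ) :=
    { carrier := {v | ∑ γ, v γ = 0}
      zero_mem' := by simp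
      add_mem' := by
        intro a b ha hb
        change ∑ γ, (a γ + b γ) = 0
        rw [Finset.sum_add_distrib, show ∑ γ, a γ = 0 from ha, show ∑ γ, b γ = 0 from hb, add_zero]
      smul_mem' := by
        intro c a ha
        change ∑ γ, c * a γ = 0
        rw [← Finset.mul_sum, show ∑ γ, a γ = 0 from ha, mul_zero] }
  have hTE : ∀ v ∈ E, T v ∈ E := by
    intro v _
    change ∑ γ, (v γ - (∑ ω, v ((q (s ω))⁻¹ * γ)) / (Fintype.card Ω : ℝ)) = 0
    rw [Finset.sum_sub_distrib, ← Finset.sum_div, Finset.sum_comm]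
    have h1 : ∀ ω, ∑ γ, v ((q (s ω))⁻¹ * γ) = ∑ γ, v γ := fun ω =>
      Fintype.sum_equiv (Equiv.mulLeft (q (s ω))⁻¹) _ _ fun γ => rfl
    simp only [h1, Finset.sum_const, Finset.card_univ, nsmul_eq_mul]
    rw [mul_div_cancel_left₀ _ hcard.ne', sub_self]
  have hinj : Function.Injective (T.restrict hTE) := by
    rw [← LinearMap.ker_eq_bot, LinearMap.ker_eq_bot']
    rintro ⟨v, hv⟩ h0
    have h1 : T v = 0 := congrArg Subtype.val h0
    obtain ⟨c, hc⟩ := const63 (fun ω => q (s ω)) ht v (fun γ => by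
      have h2 := congrFun h1 γ
      exact sub_eq_zero.1 h2)
    have h2 : ∑ γ, v γ = 0 := hv
    simp only [hc, Finset.sum_const, Finset.card_univ, nsmul_eq_mul] at h2
    have h3 : (Fintype.card Γ : ℝ) ≠ 0 := Nat.cast_ne_zero.2 Fintype.card_ne_zero
    have h4 : c = 0 := (mul_eq_zero.1 h2).resolve_left h3
    apply Subtype.ext
    funext γ
    change v γ = 0
    rw [hc, h4]
  obtain ⟨⟨v, hv⟩, hvw⟩ := (LinearMap.injective_iff_surjective.1 hinj) ⟨w, hw⟩
  refine ⟨v, fun γ => ?_⟩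
  have h1 : T v = w := congrArg Subtype.val hvw
  have h2 := congrFun h1 γ
  change v γ - (∑ ω, v ((q (s ω))⁻¹ * γ)) / (Fintype.card Ω : ℝ) = w γ at h2
  linarith

end Pool.Agent.Helper13.MT
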